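import Pool.Agent.K7.H39.TB.Sector

set_option autoImplicit false

/-!
# Closed sequences of layers

`A j`, `B j` are order automorphisms, periodic in `j`, and each step is one of the layers of
`Sector.lean`. If the combinatorial criterion on the periodic word is satisfied then the commutator
`A B A⁻¹ B⁻¹` (which does not depend on `j`) cannot move all points up, and its fixed points are
fixed by all `A j`, `B j`.
-/

namespace Pool.Agent.K7.H39.TB

open Pool.Agent.Y479.LS Aut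

/-- `m` steps, from the step with number `j`, starting in sector `k` -/
def run (st : ℕ → ℕ → ℕ) : ℕ → ℕ → ℕ → ℕ
  | _, 0, k => k
  | j, m + 1, k => run st (j + 1) m (st j k)

theorem run_mono {st : ℕ → ℕ → ℕ} (h : ∀ j k k', k ≤ k' → st j k ≤ st j k') :
    ∀ m j k k', k ≤ k' → run st j m k ≤ run st j m k'
  | 0, _, _, _, hk => hk
  | m + 1, j, _, _, hk => run_mono h m (j + 1) _ _ (h j _ _ hk)

theorem traj {S : ℕ → ℕ → Prop} {st : ℕ → ℕ → ℕ} (h : ∀ j k k', k ≤ k' → st j k ≤ st j k')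
    (hS : ∀ j k, S j k → ∃ k', k ≤ k' ∧ k' ≤ st j k ∧ S (j + 1) k') :
    ∀ m j k, S j k → ∃ k', k ≤ k' ∧ k' ≤ run st j m k ∧ S (j + m) k' ∧
      (k' = k → ∀ i ≤ m, S (j + i) k) := by
  intro m
  induction m with
  | zero =>
    intro j k hk
    refine ⟨k, le_rfl, le_rfl, hk, fun _ i hi => ?_⟩
    obtain rfl : i = 0 := by omega
    exact hk
  | succ m ih =>
    intro j k hk
    obtain ⟨k1, h1, h2, h3⟩ := hS j k hk
    obtain ⟨k2, h4, h5, h6, h7⟩ := ih (j + 1) k1 h3
    refine ⟨k2, h1.trans h4, h5.trans (run_mono h m (j + 1) _ _ h2), ?_, ?_⟩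
    · have : j + 1 + m = j + (m + 1) := by omega
      rwa [this] at h6
    · rintro rfl i hi
      have hk1 : k2 = k1 := le_antisymm h1 h4
      rcases Nat.eq_zero_or_pos i with rfl | h0
      · exact hk
      · obtain ⟨i', rfl⟩ : ∃ i', i = i' + 1 := ⟨i - 1, by omega⟩
        have h8 := h7 hk1 i' (by omega)
        have : j + 1 + i' = j + (i' + 1) := by omega
        rw [this, ← hk1] at h8
        exact h8

/-- A closed sequence of layers. -/
structure Cyc {X : Type*} [LinearOrder X] (N : ℕ) (l : ℕ → Letter) (A B e : ℕ → Aut X) : Prop where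
  pos : 0 < N
  perA : ∀ j, A (j + N) = A j
  perB : ∀ j, B (j + N) = B j
  perl : ∀ j, l (j + N) = l j
  alpha : ∀ j, (l j).isA = true → A (j + 1) = A j ∧ B (j + 1) = B j * (e j)⁻¹ ∧
    Weak (e j) (A j) ∧ (l j = .a → Bdd (e j) (A j))
  beta : ∀ j, (l j).isA = false → B (j + 1) = B j ∧ A (j + 1) = A j * e j ∧
    Weak (e j) (B j) ∧ (l j = .b → Bdd (e j) (B j))
  strictA : ∃ j, (l j).isA = true ∧ Strict (e j) (A j)
  strictB : ∃ j, (l j).isA = false ∧ Strict (e j) (B j)

/-- The combinatorial criterion on the periodic word `l`. -/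
structure Crit (N : ℕ) (l : ℕ → Letter) : Prop where
  plain : ∀ k, 1 ≤ k → k ≤ 8 → run (fun j => step (l j)) 0 N k < k + 8
  jump : ∀ j, l j = .a → run (fun j => stepJ (l j)) j N 7 < 15 ∧
    run (fun j => stepJ (l j)) j N 8 < 16

theorem const_of_antitone {X : Type*} [LinearOrder X] {N : ℕ} (hN : 0 < N) {f : ℕ → X}
    (hp : ∀ j, f (j + N) = f j) (h : ∀ i, f (i + 1) ≤ f i) (i : ℕ) : f (i + 1) = f i := by
  refine le_antisymm (h i) ?_
  have h1 : Antitone f := antitone_nat_of_succ_le h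
  calc f i = f (i + N) := (hp i).symm
    _ ≤ f (i + 1) := h1 (by omega)

theorem const_of_monotone {X : Type*} [LinearOrder X] {N : ℕ} (hN : 0 < N) {f : ℕ → X}
    (hp : ∀ j, f (j + N) = f j) (h : ∀ i, f i ≤ f (i + 1)) (i : ℕ) : f (i + 1) = f i := by
  refine le_antisymm ?_ (h i)
  have h1 : Monotone f := monotone_nat_of_le_succ h
  calc f (i + 1) ≤ f (i + N) := h1 (by omega)
    _ = f i := hp i

namespace Cyc

variable {X : Type*} [LinearOrder X] {N : ℕ} {l : ℕ → Letter} {A B e : ℕ → Aut X}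

/-- the commutator -/
def com (A B : ℕ → Aut X) (j : ℕ) : Aut X := A j * B j * (A j)⁻¹ * (B j)⁻¹

variable (C : Cyc N l A B e)
include C

theorem com_eq (j : ℕ) : com A B j = com A B 0 := by
  induction j with
  | zero => rfl
  | succ j ih =>
    rw [← ih]
    unfold com
    cases hl : (l j).isA
    · obtain ⟨h1, h2, h3, -⟩ := C.beta j hl
      rw [h1, h2]
      have h4 := h3.comm
      have h5 : e j * B j * (e j)⁻¹ = B j := by rw [h4]; group
      calc A j * e j * B j * (A j * e j)⁻¹ * (B j)⁻¹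
          = A j * (e j * B j * (e j)⁻¹) * (A j)⁻¹ * (B j)⁻¹ := by group
        _ = _ := by rw [h5]
    · obtain ⟨h1, h2, h3, -⟩ := C.alpha j hl
      rw [h1, h2]
      have h4 := h3.comm
      have h5 : (e j)⁻¹ * (A j)⁻¹ * e j = (A j)⁻¹ := by
        rw [← mul_inv_rev, ← h4]; group
      calc A j * (B j * (e j)⁻¹) * (A j)⁻¹ * (B j * (e j)⁻¹)⁻¹
          = A j * B j * ((e j)⁻¹ * (A j)⁻¹ * e j) * (B j)⁻¹ := by group
        _ = _ := by rw [h5]

omit C in
/-- the state at the point `y` is in the sector `k` -/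
def S (A B : ℕ → Aut X) (y : X) (j k : ℕ) : Prop :=
  Sec ((A j)⁻¹ y) ((B j)⁻¹ y) ((B j)⁻¹ ((A j)⁻¹ y)) y (k % 8)

theorem S_per (y : X) (j k : ℕ) : S A B y (j + N) k ↔ S A B y j k := by
  unfold S; rw [C.perA, C.perB]

theorem S_per' (y : X) (j k n : ℕ) : S A B y (j + N * n) k ↔ S A B y j k := by
  induction n with
  | zero => rw [Nat.mul_zero, Nat.add_zero]
  | succ n ih =>
    rw [← ih, ← C.S_per y (j + N * n) k]
    have : j + N * (n + 1) = j + N * n + N := by ring
    rw [this]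

theorem st {y : X} (hy : y ≤ com A B 0 y) (j : ℕ) :
    St (A j) (B j) ((A j)⁻¹ y) ((B j)⁻¹ y) ((B j)⁻¹ ((A j)⁻¹ y)) ((A j)⁻¹ ((B j)⁻¹ y)) y where
  hu := self_inv _ _
  hv := self_inv _ _
  hw := self_inv _ _
  hw' := self_inv _ _
  le := by
    rw [← C.com_eq j] at hy
    rw [← (B j).le_iff, ← (A j).le_iff, self_inv, self_inv]
    exact hy

/-- one step -/
theorem next {y : X} (hy : y ≤ com A B 0 y) (j k : ℕ) (hs : S A B y j k) :
    ∃ k', k ≤ k' ∧ k' ≤ stepJ (l j) k ∧ (k' ≤ step (l j) k ∨ (l j = .a ∧ k % 8 = 6 ∧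
      e j ((B j)⁻¹ y) ≤ y ∧ e j ((B j)⁻¹ ((A j)⁻¹ y)) ≤ y)) ∧ S A B y (j + 1) k' := by
  have hst := C.st hy j
  cases hl : l j with
  | a =>
    obtain ⟨h1, h2, -, h3⟩ := C.alpha j (by rw [hl]; rfl)
    obtain ⟨k', h4, h5, h6, h7⟩ := alpha_bdd hst (h3 hl) hs
    refine ⟨k', h4, h5, ?_, ?_⟩
    · rcases h6 with h6 | h6
      · exact Or.inl h6
      · exact Or.inr ⟨rfl, h6⟩
    · unfold S; rw [h1, h2, mul_inv_rev, inv_inv]; exact h7
  | A =>
    obtain ⟨h1, h2, h3, -⟩ := C.alpha j (by rw [hl]; rfl)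
    obtain ⟨k', h4, h5, h7⟩ := alpha_unb hst h3 hs
    refine ⟨k', h4, h5, Or.inl h5, ?_⟩
    unfold S; rw [h1, h2, mul_inv_rev, inv_inv]; exact h7
  | b =>
    obtain ⟨h1, h2, -, h3⟩ := C.beta j (by rw [hl]; rfl)
    obtain ⟨k', h4, h5, h7⟩ := beta_bdd hst (h3 hl) hs
    refine ⟨k', h4, h5, Or.inl h5, ?_⟩
    have h8 : (e j)⁻¹ * (B j)⁻¹ = (B j)⁻¹ * (e j)⁻¹ := by
      rw [← mul_inv_rev, ← mul_inv_rev, (h3 hl).comm]
    have h9 : (B j)⁻¹ ((e j)⁻¹ ((A j)⁻¹ y)) = (e j)⁻¹ ((B j)⁻¹ ((A j)⁻¹ y)) := by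
      rw [← mul_apply, ← h8, mul_apply]
    unfold S; rw [h1, h2, mul_inv_rev, mul_apply, h9]; exact h7
  | B =>
    obtain ⟨h1, h2, h3, -⟩ := C.beta j (by rw [hl]; rfl)
    obtain ⟨k', h4, h5, h7⟩ := beta_unb hst h3 hs
    refine ⟨k', h4, h5, Or.inl h5, ?_⟩
    have h8 : (e j)⁻¹ * (B j)⁻¹ = (B j)⁻¹ * (e j)⁻¹ := by
      rw [← mul_inv_rev, ← mul_inv_rev, h3.comm]
    have h9 : (B j)⁻¹ ((e j)⁻¹ ((A j)⁻¹ y)) = (e j)⁻¹ ((B j)⁻¹ ((A j)⁻¹ y)) := by
      rw [← mul_apply, ← h8, mul_apply]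
    unfold S; rw [h1, h2, mul_inv_rev, mul_apply, h9]; exact h7

theorem const {y : X} {st : ℕ → ℕ → ℕ} (h : ∀ j k k', k ≤ k' → st j k ≤ st j k')
    (hS : ∀ j k, S A B y j k → ∃ k', k ≤ k' ∧ k' ≤ st j k ∧ S A B y (j + 1) k') {j k : ℕ}
    (hk : S A B y j k) (hr : run st j N k < k + 8) (i : ℕ) : S A B y i k := by
  obtain ⟨k', h1, h2, h3, h4⟩ := traj h hS N j k hk
  have h5 := (C.S_per y j k').mp h3
  have h6 := Sec.unique (Nat.mod_lt _ (by norm_num)) (Nat.mod_lt _ (by norm_num)) hk h5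
  have h7 := h4 (by omega)
  have h8 : ∀ i, S A B y (j + i) k := by
    intro i
    induction i using Nat.strong_induction_on with
    | _ i ih =>
      rcases Nat.lt_or_ge i N with h9 | h9
      · exact h7 i h9.le
      · have h10 := ih (i - N) (by have := C.pos; omega)
        rw [← C.S_per] at h10
        have : j + (i - N) + N = j + i := by omega
        rwa [this] at h10
  have hN := C.pos
  have h9 := h8 (i + N * j - j)
  have h10 : j ≤ i + N * j := by nlinarith
  have h11 : j + (i + N * j - j) = i + N * j := by omega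
  rw [h11, C.S_per'] at h9
  exact h9

/-- A sector in which the state cannot stay. -/
theorem no_const {y : X} (hy : y ≤ com A B 0 y) {k : ℕ} (h : ∀ i, S A B y i k) :
    k % 8 = 3 ∨ k % 8 = 4 := by
  by_contra hcon
  have hN := C.pos
  have cA : ∀ j, (l j).isA = true → (A (j + 1))⁻¹ y = (A j)⁻¹ y ∧
      (B (j + 1))⁻¹ y = e j ((B j)⁻¹ y) := by
    intro j hj
    obtain ⟨h1, h2, -⟩ := C.alpha j hj
    rw [h1, h2, mul_inv_rev, inv_inv]; exact ⟨rfl, rfl⟩
  have cB : ∀ j, (l j).isA = false → (A (j + 1))⁻¹ y = (e j)⁻¹ ((A j)⁻¹ y) ∧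
      (B (j + 1))⁻¹ y = (B j)⁻¹ y := by
    intro j hj
    obtain ⟨h1, h2, -⟩ := C.beta j hj
    rw [h1, h2, mul_inv_rev]; exact ⟨rfl, rfl⟩
  obtain ⟨r, hr⟩ : ∃ r, k % 8 = r := ⟨_, rfl⟩
  have hk : r < 8 := by rw [← hr]; exact Nat.mod_lt _ (by norm_num)
  unfold S at h
  rw [hr] at h hcon
  -- `u` decreases
  have d1 : (∀ i, (B i)⁻¹ ((A i)⁻¹ y) < (A i)⁻¹ y) → False := by
    intro h1
    obtain ⟨j, hj, hs⟩ := C.strictB
    have h2 := const_of_antitone hN (f := fun j => (A j)⁻¹ y) (fun j => by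
      simp only [C.perA]) (fun i => by
        cases hl : (l i).isA
        · simp only [(cB i hl).1]
          refine (C.beta i hl).2.2.1.inv_down ?_
          have := h1 i
          rw [← (B i).lt_iff, self_inv] at this; exact this.le
        · exact (cA i hl).1.le) j
    simp only [(cB j hj).1] at h2
    have h3 := h1 j
    rw [← (B j).lt_iff, self_inv] at h3
    have h4 := hs.pos _ h3
    rw [← (e j)⁻¹.lt_iff, inv_self, h2] at h4
    exact lt_irrefl _ h4
  -- `u` increases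
  have d2 : (∀ i, (A i)⁻¹ y < (B i)⁻¹ ((A i)⁻¹ y)) → False := by
    intro h1
    obtain ⟨j, hj, hs⟩ := C.strictB
    have h2 := const_of_monotone hN (f := fun j => (A j)⁻¹ y) (fun j => by
      simp only [C.perA]) (fun i => by
        cases hl : (l i).isA
        · simp only [(cB i hl).1]
          refine (C.beta i hl).2.2.1.inv_up ?_
          have := h1 i
          rw [← (B i).lt_iff, self_inv] at this; exact this.le
        · exact (cA i hl).1.ge) j
    simp only [(cB j hj).1] at h2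
    have h3 := h1 j
    rw [← (B j).lt_iff, self_inv] at h3
    have h4 := hs.neg _ h3
    rw [← (e j)⁻¹.lt_iff, inv_self, h2] at h4
    exact lt_irrefl _ h4
  -- `v` decreases
  have d3 : (∀ i, y < (A i)⁻¹ y) → False := by
    intro h1
    have h2 : ∀ i, A i ((B i)⁻¹ y) < (B i)⁻¹ y := by
      intro i
      have hst := C.st hy i
      have h3 := (hst.f3.mpr (h1 i)).trans_le hst.le
      rw [← (A i).lt_iff, self_inv] at h3; exact h3
    obtain ⟨j, hj, hs⟩ := C.strictA
    have h3 := const_of_antitone hN (f := fun j => (B j)⁻¹ y) (fun j => by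
      simp only [C.perB]) (fun i => by
        cases hl : (l i).isA
        · exact (cB i hl).2.le
        · simp only [(cA i hl).2]
          exact (C.alpha i hl).2.2.1.neg _ (h2 i)) j
    simp only [(cA j hj).2] at h3
    have h4 := hs.neg _ (h2 j)
    rw [h3] at h4
    exact lt_irrefl _ h4
  interval_cases r
  · exact d3 fun i => (h i).1
  · refine d1 fun i => ?_
    have hst := C.st hy i
    exact hst.le.trans_lt (hst.f1.mpr ((h i).1.trans_le (h i).2))
  · refine d1 fun i => ?_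
    have hst := C.st hy i
    exact hst.le.trans_lt (hst.f1.mpr (h i).2)
  · exact hcon (Or.inl rfl)
  · exact hcon (Or.inr rfl)
  · refine d2 fun i => ?_
    have hst := C.st hy i
    exact (h i).1.trans_le (hst.f4.mpr (h i).2)
  · exact d3 fun i => (h i).2.trans_le (h i).1
  · exact d3 fun i => (h i).1

/-- `v` cannot increase. -/
theorem no_incr {y : X} (h : ∀ i, (B i)⁻¹ y < A i ((B i)⁻¹ y)) : False := by
  obtain ⟨j, hj, hs⟩ := C.strictA
  have h3 := const_of_monotone C.pos (f := fun j => (B j)⁻¹ y) (fun j => by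
    simp only [C.perB]) (fun i => by
      cases hl : (l i).isA
      · rw [(C.beta i hl).1]
      · obtain ⟨h1, h2, h4, -⟩ := C.alpha i hl
        simp only [h2, mul_inv_rev, inv_inv]
        exact h4.pos _ (h i)) j
  obtain ⟨h1, h2, -⟩ := C.alpha j hj
  simp only [h2, mul_inv_rev, inv_inv] at h3
  have h4 := hs.pos _ (h j)
  exact absurd h3 h4.ne'

/-- Fixed points of the commutator are fixed by `A 0` and `B 0`. -/
theorem fixed (hc : Crit N l) {y : X} (hy : com A B 0 y = y) : A 0 y = y ∧ B 0 y = y := by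
  by_contra hcon
  have h0 : ¬ ((A 0)⁻¹ y = y ∧ (B 0)⁻¹ y = y) := by
    rintro ⟨h1, h2⟩
    apply hcon
    rw [← (A 0).inj, self_inv] at h1
    rw [← (B 0).inj, self_inv] at h2
    exact ⟨h1.symm, h2.symm⟩
  obtain ⟨k, hk1, hk2, hs⟩ := Sec.exists _ _ ((B 0)⁻¹ ((A 0)⁻¹ y)) _ h0
  have hww : ∀ j, (B j)⁻¹ ((A j)⁻¹ y) = (A j)⁻¹ ((B j)⁻¹ y) := by
    intro j
    have h1 := hy
    rw [← C.com_eq j] at h1
    rw [← (B j).inj, ← (A j).inj, self_inv, self_inv]
    exact h1.symm
  have hconst := C.const (y := y) (st := fun j => step (l j))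
    (fun j _ _ hk => step_mono _ hk) (fun j k hs => by
      obtain ⟨k', h1, -, h2, h3⟩ := C.next hy.ge j k hs
      rcases h2 with h2 | ⟨h4, h5, h6, h7⟩
      · exact ⟨k', h1, h2, h3⟩
      · exfalso
        have hst := C.st hy.ge j
        unfold S at hs
        rw [h5] at hs
        obtain ⟨h8, h9⟩ := hs
        have h10 := hst.f3.mpr (h9.trans_le h8)
        have h11 := ((C.alpha j (by rw [h4]; rfl)).2.2.2 h4).ge_of
          (z := (B j)⁻¹ ((A j)⁻¹ y)) (by rw [hww, self_inv, ← hww]; exact h10.le)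
        rw [hww, self_inv, ← hww] at h11
        exact absurd (h11.trans h7) (not_le.mpr h9)) hs (hc.plain k hk1 hk2)
  rcases C.no_const hy.ge hconst with h1 | h1
  · refine C.no_incr (y := y) fun i => ?_
    have h2 := hconst i
    unfold S at h2
    rw [h1] at h2
    have h3 := (C.st hy.ge i).f2.mpr h2.1
    rw [hww, ← (A i).lt_iff, self_inv] at h3
    exact h3
  · refine C.no_incr (y := y) fun i => ?_
    have h2 := hconst i
    unfold S at h2
    rw [h1] at h2
    have h3 := (C.st hy.ge i).f2.mpr h2.1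
    rw [hww, ← (A i).lt_iff, self_inv] at h3
    exact h3

/-- The commutator does not move all points up. -/
theorem not_pos (hc : Crit N l) [Nonempty X] (hy : ∀ y, y < com A B 0 y) : False := by
  -- no state `7` or `8` in front of a bounded layer of the first type
  have c1 : ∀ j, l j = .a → ∀ z, ¬ (z < (A j)⁻¹ z ∧ (B j)⁻¹ z ≤ z) := by
    rintro j hj z ⟨hz1, hz2⟩
    have key : ∀ k, S A B z j k → run (fun j => stepJ (l j)) j N k < k + 8 →
        k % 8 ≠ 3 → k % 8 ≠ 4 → False := by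
      intro k hs hr h3 h4
      have hconst := C.const (y := z) (st := fun j => stepJ (l j))
        (fun j _ _ hk => stepJ_mono _ hk) (fun j k hs => by
          obtain ⟨k', h1, h2, -, h3⟩ := C.next (hy z).le j k hs
          exact ⟨k', h1, h2, h3⟩) hs hr
      rcases C.no_const (hy z).le hconst with h1 | h1
      · exact h3 h1
      · exact h4 h1
    rcases lt_or_ge z ((B j)⁻¹ ((A j)⁻¹ z)) with h1 | h1
    · exact key 7 ⟨hz1, hz2, h1⟩ (hc.jump j hj).1 (by norm_num) (by norm_num)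
    · exact key 8 ⟨hz1, hz2, h1⟩ (hc.jump j hj).2 (by norm_num) (by norm_num)
  -- hence no jumps
  have c2 : ∀ y j k, S A B y j k → ∃ k', k ≤ k' ∧ k' ≤ step (l j) k ∧ S A B y (j + 1) k' := by
    intro y j k hs
    obtain ⟨k', h1, -, h2, h3⟩ := C.next (hy y).le j k hs
    rcases h2 with h2 | ⟨h4, h5, h6, h7⟩
    · exact ⟨k', h1, h2, h3⟩
    · exfalso
      unfold S at hs
      rw [h5] at hs
      obtain ⟨h8, h9⟩ := hs
      have h10 : y < (A j)⁻¹ y := h9.trans_le h8
      refine c1 j h4 ((A j)⁻¹ y) ⟨((A j)⁻¹.lt_iff).mpr h10, ?_⟩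
      have h11 := ((C.alpha j (by rw [h4]; rfl)).2.2.2 h4).ge_of (z := (A j)⁻¹ y)
        (by rw [self_inv]; exact h10.le)
      rw [self_inv] at h11
      exact ((e j).le_iff).mp (h7.trans h11)
  -- all states are in the sectors `3`, `4`
  have c3 : ∀ y i, (A i)⁻¹ y < y := by
    intro y i
    have h0 : ¬ ((A 0)⁻¹ y = y ∧ (B 0)⁻¹ y = y) := by
      rintro ⟨h1, h2⟩
      have h3 := hy y
      unfold com at h3
      rw [mul_apply, mul_apply, mul_apply, h2, h1] at h3
      rw [← (B 0).inj, self_inv] at h2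
      rw [← (A 0).inj, self_inv] at h1
      rw [← h2, ← h1] at h3
      exact lt_irrefl _ h3
    obtain ⟨k, hk1, hk2, hs⟩ := Sec.exists _ _ ((B 0)⁻¹ ((A 0)⁻¹ y)) _ h0
    have hconst := C.const (y := y) (st := fun j => step (l j))
      (fun j _ _ hk => step_mono _ hk) (c2 y) hs (hc.plain k hk1 hk2)
    have h2 := hconst i
    unfold S at h2
    rcases C.no_const (hy y).le hconst with h1 | h1
    · rw [h1] at h2; exact h2.1
    · rw [h1] at h2; exact h2.1
  obtain ⟨y⟩ := ‹Nonempty X›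
  refine C.no_incr (y := y) fun i => ?_
  have h1 := c3 (A i ((B i)⁻¹ y)) i
  rwa [inv_self] at h1

end Cyc

end Pool.Agent.K7.H39.TB
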