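import Pool.Agent.K7.H39.TB.Group

set_option autoImplicit false

/-!
# Chains of general pieces, and alternating tangles as pieces
-/

namespace Pool.Agent.K7.H39.TB

open Pool.Agent.Y479.LS Aut

namespace Piece

/-- In every action by automorphisms on a linear order, `a` is zero, or has the sign of `A`, at each
point, and the fixed points of `A` are global fixed points. -/
structure Ok (M : Piece) : Prop where
  pos : ∀ (X : Type) [LinearOrder X] (φ : M.P →* Aut X) (x : X), x < φ M.A x → x ≤ φ M.a x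
  neg : ∀ (X : Type) [LinearOrder X] (φ : M.P →* Aut X) (x : X), φ M.A x < x → φ M.a x ≤ x
  fix : ∀ (X : Type) [LinearOrder X] (φ : M.P →* Aut X) (x : X), φ M.A x = x → ∀ g, φ g x = x

/-- In every action by automorphisms on a linear order, `a` has the sign of `A` at each point. -/
structure Proper (M : Piece) : Prop where
  pos : ∀ (X : Type) [LinearOrder X] (φ : M.P →* Aut X) (x : X), x < φ M.A x → x < φ M.a x
  neg : ∀ (X : Type) [LinearOrder X] (φ : M.P →* Aut X) (x : X), φ M.A x < x → φ M.a x < x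

/-- In every action by automorphisms on a linear order, `a` is at most as large as `A` at each
point. -/
structure Bounded (M : Piece) : Prop where
  pos : ∀ (X : Type) [LinearOrder X] (φ : M.P →* Aut X) (x : X), x < φ M.A x → φ M.a x ≤ φ M.A x
  neg : ∀ (X : Type) [LinearOrder X] (φ : M.P →* Aut X) (x : X), φ M.A x < x → φ M.A x ≤ φ M.a x

theorem rat_pow {X : Type} [LinearOrder X] (φ : Multiplicative ℤ →* Aut X) (n : ℕ) :
    φ (Multiplicative.ofAdd (n : ℤ)) = φ (Multiplicative.ofAdd 1) ^ n := by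
  rw [← map_pow, ← ofAdd_nsmul]
  simp

section ratAux
variable {X : Type} [LinearOrder X] (φ : Multiplicative ℤ →* Aut X)

theorem rat_weak (p : ℕ) {q : ℕ} (hq : 0 < q) :
    Weak (φ (Multiplicative.ofAdd (p : ℤ))) (φ (Multiplicative.ofAdd (q : ℤ))) := by
  rw [rat_pow φ p, rat_pow φ q]; exact weak_pow _ p hq

theorem rat_bdd {p q : ℕ} (hq : 0 < q) (hpq : p ≤ q) :
    Bdd (φ (Multiplicative.ofAdd (p : ℤ))) (φ (Multiplicative.ofAdd (q : ℤ))) := by
  rw [rat_pow φ p, rat_pow φ q]; exact bdd_pow _ hq hpq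

theorem rat_strict {p : ℕ} (hp : 0 < p) (q : ℕ) :
    Strict (φ (Multiplicative.ofAdd (p : ℤ))) (φ (Multiplicative.ofAdd (q : ℤ))) := by
  rw [rat_pow φ p, rat_pow φ q]; exact strict_pow _ hp

theorem rat_fix {q : ℕ} (hq : 0 < q) {x : X} (h : φ (Multiplicative.ofAdd (q : ℤ)) x = x)
    (g : Multiplicative ℤ) : φ g x = x := by
  rw [rat_pow φ q] at h
  have h1 := fix_of_pow hq h
  have h2 : ∀ n : ℤ, (φ (Multiplicative.ofAdd 1) ^ n) x = x := by
    intro n
    have hmem : φ (Multiplicative.ofAdd 1) ∈ Aut.stab x x := ⟨h1, h1⟩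
    exact ((Aut.stab x x).zpow_mem hmem n).1
  have h3 : g = Multiplicative.ofAdd 1 ^ (Multiplicative.toAdd g) := by
    rw [← ofAdd_zsmul]; simp
  rw [h3, map_zpow]
  exact h2 _

end ratAux

end Piece

/-! ### the amalgam -/

namespace Glued

variable {N : ℕ} {M : Fin N → Piece} {κ : Fin N → Bool}

def A (i : Fin N) : Grp M κ := PresentedGroup.mk _ (gA M i)
def B (i : Fin N) : Grp M κ := PresentedGroup.mk _ (gB M i)

theorem mk_one {r : FreeGroup (Gen M)} (h : r ∈ relators M κ) :
    (PresentedGroup.mk (relators M κ) r : Grp M κ) = 1 := PresentedGroup.one_of_mem h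

/-- the homomorphism from a piece -/
def inc (i : Fin N) : (M i).P →* Grp M κ :=
  MonoidHom.mk' (fun x => PresentedGroup.mk _ (gP M i x)) (by
    intro x y
    have h1 := mk_one (κ := κ) (Or.inl ⟨i, x, y, rfl⟩)
    rw [map_mul, map_inv, mul_inv_eq_one, map_mul] at h1
    exact h1.symm)

theorem relA (i : Fin N) (h : κ i = true) : (A i : Grp M κ) = inc i (M i).A ∧
    (A (nx i) : Grp M κ) = A i ∧ (B (nx i) : Grp M κ) = B i * (inc i (M i).a)⁻¹ := by
  have h1 := mk_one (M := M) (κ := κ) (Or.inr (Or.inl ⟨i, h, Or.inl rfl⟩))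
  have h2 := mk_one (M := M) (κ := κ) (Or.inr (Or.inl ⟨i, h, Or.inr (Or.inl rfl)⟩))
  have h3 := mk_one (M := M) (κ := κ) (Or.inr (Or.inl ⟨i, h, Or.inr (Or.inr rfl)⟩))
  rw [map_mul, map_inv, mul_inv_eq_one] at h1 h2 h3
  simp only [map_mul, map_inv] at h1 h2 h3
  exact ⟨h1, h2, h3⟩

theorem relB (i : Fin N) (h : κ i = false) : (B i : Grp M κ) = inc i (M i).A ∧
    (B (nx i) : Grp M κ) = B i ∧ (A (nx i) : Grp M κ) = A i * inc i (M i).a := by
  have h1 := mk_one (M := M) (κ := κ) (Or.inr (Or.inr ⟨i, h, Or.inl rfl⟩))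
  have h2 := mk_one (M := M) (κ := κ) (Or.inr (Or.inr ⟨i, h, Or.inr (Or.inl rfl)⟩))
  have h3 := mk_one (M := M) (κ := κ) (Or.inr (Or.inr ⟨i, h, Or.inr (Or.inr rfl)⟩))
  rw [map_mul, map_inv, mul_inv_eq_one] at h1 h2 h3
  simp only [map_mul] at h1 h2 h3
  exact ⟨h1, h2, h3⟩

end Glued

namespace Piece

variable {M : Piece} {X : Type} [LinearOrder X] (φ : M.P →* Aut X)

theorem Ok.weak (h : M.Ok) : Weak (φ M.a) (φ M.A) where
  comm := by rw [← map_mul, ← map_mul, M.comm]
  pos z hz := h.pos X φ z hz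
  neg z hz := h.neg X φ z hz
  fix z hz := h.fix X φ z hz _

theorem Ok.bdd (h : M.Ok) (hb : M.Bounded) : Bdd (φ M.a) (φ M.A) where
  toWeak := h.weak φ
  ple z hz := hb.pos X φ z hz
  nle z hz := hb.neg X φ z hz

theorem Proper.strict (h : M.Proper) : Strict (φ M.a) (φ M.A) where
  pos z hz := h.pos X φ z hz
  neg z hz := h.neg X φ z hz

end Piece

/-- Chains of pieces. -/
theorem glued_noLO {w : List Letter} (hw : w ∈ words) (M : Fin w.length → Piece)
    (hM : ∀ i, (M i).Ok) (hb : ∀ i, (w.get i).bounded = true → (M i).Bounded)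
    (hA : ∃ i : Fin w.length, (w.get i).isA = true ∧ (M i).Proper)
    (hB : ∃ i : Fin w.length, (w.get i).isA = false ∧ (M i).Proper) :
    NoLO (Glued.Grp M (fun i => (w.get i).isA)) := by
  refine noLO_of hw Glued.A Glued.B (fun i => Glued.inc i (M i).a) ?_ ?_ ?_ ?_ ?_ ?_ ?_
  · intro i hi
    obtain ⟨h1, h2, h3⟩ := Glued.relA (M := M) (κ := fun i => (w.get i).isA) i hi
    refine ⟨h2, h3, ?_⟩
    rw [h1, ← map_mul, ← map_mul, (M i).comm]
  · intro i hi
    obtain ⟨h1, h2, h3⟩ := Glued.relB (M := M) (κ := fun i => (w.get i).isA) i hi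
    refine ⟨h2, h3, ?_⟩
    rw [h1, ← map_mul, ← map_mul, (M i).comm]
  · intro X _ φ i hi
    obtain ⟨h1, h2, h3⟩ := Glued.relA (M := M) (κ := fun i => (w.get i).isA) i hi
    rw [h1]
    exact ⟨(hM i).weak (φ.comp (Glued.inc i)), fun h => (hM i).bdd (φ.comp (Glued.inc i)) (hb i h)⟩
  · intro X _ φ i hi
    obtain ⟨h1, h2, h3⟩ := Glued.relB (M := M) (κ := fun i => (w.get i).isA) i hi
    rw [h1]
    exact ⟨(hM i).weak (φ.comp (Glued.inc i)), fun h => (hM i).bdd (φ.comp (Glued.inc i)) (hb i h)⟩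
  · obtain ⟨i, hi, hp⟩ := hA
    refine ⟨i, hi, fun X _ φ => ?_⟩
    obtain ⟨h1, h2, h3⟩ := Glued.relA (M := M) (κ := fun i => (w.get i).isA) i hi
    rw [h1]
    exact hp.strict (φ.comp (Glued.inc i))
  · obtain ⟨i, hi, hp⟩ := hB
    refine ⟨i, hi, fun X _ φ => ?_⟩
    obtain ⟨h1, h2, h3⟩ := Glued.relB (M := M) (κ := fun i => (w.get i).isA) i hi
    rw [h1]
    exact hp.strict (φ.comp (Glued.inc i))
  · intro X _ φ x hx γ
    have hmem : γ ∈ Subgroup.closure (Set.range (PresentedGroup.of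
        (rels := Glued.relators M (fun i => (w.get i).isA)))) := by
      rw [PresentedGroup.closure_range_of]; trivial
    induction hmem using Subgroup.closure_induction with
    | mem y hy =>
      obtain ⟨(i | i) | ⟨i, g⟩, rfl⟩ := hy
      · exact (hx i).1
      · exact (hx i).2
      · have h0 : (φ.comp (Glued.inc i)) (M i).A x = x := by
          cases hk : (w.get i).isA
          · obtain ⟨h1, -⟩ := Glued.relB (M := M) (κ := fun i => (w.get i).isA) i hk
            rw [MonoidHom.comp_apply, ← h1]; exact (hx i).2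
          · obtain ⟨h1, -⟩ := Glued.relA (M := M) (κ := fun i => (w.get i).isA) i hk
            rw [MonoidHom.comp_apply, ← h1]; exact (hx i).1
        exact (hM i).fix X (φ.comp (Glued.inc i)) x h0 g
    | one => rw [map_one, Aut.one_apply]
    | mul y z _ _ h5 h6 => rw [map_mul, Aut.mul_apply, h6, h5]
    | inv y _ h5 => rw [map_inv, ← Aut.inj (φ y), Aut.self_inv, h5]

/-! ### alternating tangles -/

namespace Tan

variable {T : Tangle}

theorem mk_one {r : FreeGroup (Gen T)} (h : r ∈ relators T) :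
    (PresentedGroup.mk (relators T) r : Grp T) = 1 := PresentedGroup.one_of_mem h

theorem rep : T.Rep (W (T := T)) B := by
  intro c
  have := mk_one (T := T) (Or.inl ⟨c, rfl⟩)
  rw [map_mul, map_inv, mul_inv_eq_one] at this
  simp only [map_mul, map_inv] at this
  exact this

theorem west_one : W (T := T) T.west = 1 := mk_one (T := T) (Or.inr (Or.inl rfl))
theorem north_one : B (T := T) T.north = 1 := mk_one (T := T) (Or.inr (Or.inr rfl))

variable {X : Type} [LinearOrder X] (φ : Grp T →* Aut X) (x : X)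

theorem w_west : φ (W T.west) x = x := by rw [west_one, map_one, Aut.one_apply]
theorem b_north : φ (B T.north) x = x := by rw [north_one, map_one, Aut.one_apply]

theorem up (h : x ≤ φ (W T.east) x) : x ≤ φ (B T.south) x := by
  have := T.finW
  have h1 := T.white.current (rep.map φ).white x (by rw [w_west φ x]; exact h)
  rwa [b_north φ x] at h1

theorem down (h : φ (W T.east) x ≤ x) : φ (B T.south) x ≤ x := by
  have := T.finW
  have h1 := T.white.current_aux (rep.map φ).white x (by rw [w_west φ x]; exact h)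
  rwa [b_north φ x] at h1

theorem fix_white (h : φ (B T.south) x = x) : φ (W T.east) x = x := by
  have := T.finB
  have h1 := (T.black.eq_of_eq (rep.map φ).black x (by rw [b_north φ x]; exact h.symm)).2
  rw [w_west φ x] at h1
  exact h1

theorem fix_all (hx : φ (W T.east) x = x) (γ : Grp T) : φ γ x = x := by
  obtain ⟨h1, h2⟩ := Tangle.fix (rep.map φ) (x := x) ((w_west φ x).trans hx.symm)
  have hmem : γ ∈ Subgroup.closure (Set.range (PresentedGroup.of (rels := relators T))) := by
    rw [PresentedGroup.closure_range_of]; trivial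
  induction hmem using Subgroup.closure_induction with
  | mem y hy =>
    obtain ⟨v | v, rfl⟩ := hy
    · exact (h1 v).trans (w_west φ x)
    · exact (h2 v).trans (b_north φ x)
  | one => rw [map_one, Aut.one_apply]
  | mul y z _ _ h5 h6 => rw [map_mul, Aut.mul_apply, h6, h5]
  | inv y _ h5 => rw [map_inv, ← Aut.inj (φ y), Aut.self_inv, h5]

theorem up_lt (h : x < φ (W T.east) x) : x < φ (B T.south) x := by
  refine lt_of_le_of_ne (up φ x h.le) fun h1 => ?_
  have h2 := fix_white φ x h1.symm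
  rw [h2] at h
  exact lt_irrefl _ h

theorem down_lt (h : φ (W T.east) x < x) : φ (B T.south) x < x := by
  refine lt_of_le_of_ne (down φ x h.le) fun h1 => ?_
  have h2 := fix_white φ x h1
  rw [h2] at h
  exact lt_irrefl _ h

theorem south_eq (hc : ∃ c, T.b₁ c = T.south ∧ T.b₂ c = T.north) :
    ∃ v v', B (T := T) T.south = (W v)⁻¹ * W v' := by
  obtain ⟨c, h1, h2⟩ := hc
  refine ⟨T.w₁ c, T.w₂ c, ?_⟩
  have := rep (T := T) c
  rwa [h1, h2, north_one, inv_one, one_mul] at this

theorem bdd_up (hc : ∃ c, T.b₁ c = T.south ∧ T.b₂ c = T.north) (h : x < φ (W T.east) x) :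
    φ (B T.south) x ≤ φ (W T.east) x := by
  obtain ⟨v, v', h3⟩ := south_eq hc
  have := T.finW
  rw [h3, map_mul, map_inv, mul_apply, ← (φ (W v)).le_iff, self_inv]
  have h4 : φ (W v') x ≤ φ (W T.east) x :=
    T.white.le_second (rep.map φ).white x (by rw [w_west φ x]; exact h.le) _
  have h5 : φ (W T.west) (φ (W T.east) x) ≤ φ (W v) (φ (W T.east) x) :=
    T.white.first_le (rep.map φ).white (φ (W T.east) x)
      (by rw [w_west φ]; exact ((φ (W T.east)).lt_iff.mpr h).le) _
  rw [w_west φ] at h5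
  exact h4.trans h5

theorem bdd_down (hc : ∃ c, T.b₁ c = T.south ∧ T.b₂ c = T.north) (h : φ (W T.east) x < x) :
    φ (W T.east) x ≤ φ (B T.south) x := by
  obtain ⟨v, v', h3⟩ := south_eq hc
  have := T.finW
  rw [h3, map_mul, map_inv, mul_apply, ← (φ (W v)).le_iff, self_inv]
  have h4 : φ (W T.east) x ≤ φ (W v') x :=
    T.white.symm.first_le (rep.map φ).white x (by rw [w_west φ x]; exact h.le) _
  have h5 : φ (W v) (φ (W T.east) x) ≤ φ (W T.west) (φ (W T.east) x) :=
    T.white.symm.le_second (rep.map φ).white (φ (W T.east) x)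
      (by rw [w_west φ]; exact ((φ (W T.east)).lt_iff.mpr h).le) _
  rw [w_west φ] at h5
  exact h5.trans h4

end Tan

namespace Tang

theorem ok : ∀ T : Tang, T.piece.Ok
  | rat p _ hq =>
    { pos := fun _ _ φ x h => (Piece.rat_weak φ p hq).pos x h
      neg := fun _ _ φ x h => (Piece.rat_weak φ p hq).neg x h
      fix := fun _ _ φ _ h g => Piece.rat_fix φ hq h g }
  | alt _ _ =>
    { pos := fun _ _ φ x hx => Tan.up φ x (le_of_lt hx)
      neg := fun _ _ φ x hx => Tan.down φ x (le_of_lt hx)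
      fix := fun _ _ φ x hx γ => Tan.fix_all φ x hx γ }

theorem proper : ∀ T : Tang, T.Proper → T.piece.Proper
  | rat _ q _, hp =>
    { pos := fun _ _ φ x h => (Piece.rat_strict φ hp q).pos x h
      neg := fun _ _ φ x h => (Piece.rat_strict φ hp q).neg x h }
  | alt _ _, _ =>
    { pos := fun _ _ φ x hx => Tan.up_lt φ x hx
      neg := fun _ _ φ x hx => Tan.down_lt φ x hx }

theorem bounded : ∀ T : Tang, T.Bounded → T.piece.Bounded
  | rat _ _ hq, hpq =>
    { pos := fun _ _ φ x h => (Piece.rat_bdd φ hq hpq).ple x h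
      neg := fun _ _ φ x h => (Piece.rat_bdd φ hq hpq).nle x h }
  | alt _ _, hc =>
    { pos := fun _ _ φ x hx => Tan.bdd_up φ x hc hx
      neg := fun _ _ φ x hx => Tan.bdd_down φ x hc hx }

end Tang

/-- Chains of tangles. -/
theorem chain_noLO {w : List Letter} (hw : w ∈ words) (T : Fin w.length → Tang)
    (hb : ∀ i, (w.get i).bounded = true → (T i).Bounded)
    (hA : ∃ i : Fin w.length, (w.get i).isA = true ∧ (T i).Proper)
    (hB : ∃ i : Fin w.length, (w.get i).isA = false ∧ (T i).Proper) : NoLO (ChainGrp w T) := by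
  refine glued_noLO hw (fun i => (T i).piece) (fun i => (T i).ok)
    (fun i hi => (T i).bounded (hb i hi)) ?_ ?_
  · obtain ⟨i, h1, h2⟩ := hA
    exact ⟨i, h1, (T i).proper h2⟩
  · obtain ⟨i, h1, h2⟩ := hB
    exact ⟨i, h1, (T i).proper h2⟩

end Pool.Agent.K7.H39.TB
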