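import Pool.Agent.K7.H39.TB.Core

set_option autoImplicit false

/-!
# The criterion for the four words, and groups with a closed chain of layers
-/

namespace Pool.Agent.K7.H39.TB

open Pool.Agent.Y479.LS Aut

theorem run_congr {st st' : ℕ → ℕ → ℕ} (m : ℕ) : ∀ (j j' : ℕ), (∀ i k, st (j + i) k = st' (j' + i) k) →
    ∀ k, run st j m k = run st' j' m k := by
  induction m with
  | zero => intro j j' _ k; rfl
  | succ m ih =>
    intro j j' h k
    have h0 := h 0 k
    simp only [add_zero] at h0
    simp only [run, h0]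
    refine ih (j + 1) (j' + 1) (fun i k => ?_) _
    have := h (1 + i) k
    rwa [← add_assoc, ← add_assoc] at this

/-- the periodic continuation of a word -/
def per (w : List Letter) (j : ℕ) : Letter := w.getD (j % w.length) .a

/-- It is enough to check the criterion for the first period. -/
theorem crit_of (w : List Letter)
    (h1 : ∀ k < 9, 1 ≤ k → run (fun j => step (per w j)) 0 w.length k < k + 8)
    (h2 : ∀ j < w.length, per w j = .a → run (fun j => stepJ (per w j)) j w.length 7 < 15 ∧
      run (fun j => stepJ (per w j)) j w.length 8 < 16) : Crit w.length (per w) where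
  plain k hk1 hk2 := h1 k (by omega) hk1
  jump j hj := by
    rcases Nat.eq_zero_or_pos w.length with h0 | h0
    · rw [h0]; exact ⟨by norm_num [run], by norm_num [run]⟩
    · have hp : ∀ i, per w (j % w.length + i) = per w (j + i) := by
        intro i; unfold per; rw [Nat.mod_add_mod]
      have hj' : per w (j % w.length) = .a := by rw [← hj]; exact hp 0
      have h3 := h2 (j % w.length) (Nat.mod_lt _ h0) hj'
      have h4 : ∀ k, run (fun j => stepJ (per w j)) (j % w.length) w.length k =
          run (fun j => stepJ (per w j)) j w.length k := by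
        refine run_congr _ _ _ fun i k => ?_
        simp only [hp]
      rwa [h4, h4] at h3

theorem words_crit : ∀ w ∈ words, 0 < w.length ∧ Crit w.length (per w) := by
  intro w hw
  simp only [words, List.mem_cons, List.mem_nil_iff, or_false] at hw
  rcases hw with rfl | rfl | rfl | rfl
  · exact ⟨by decide, crit_of _ (by decide) (by decide)⟩
  · exact ⟨by decide, crit_of _ (by decide) (by decide)⟩
  · exact ⟨by decide, crit_of _ (by decide) (by decide)⟩
  · exact ⟨by decide, crit_of _ (by decide) (by decide)⟩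

/-- every homomorphism to a left-orderable group is trivial -/
def NoLO (G : Type) [Group G] : Prop :=
  ∀ (H : Type) [Group H], LeftOrderable H → ∀ (f : G →* H) (γ : G), f γ = 1

theorem NoLO.not_leftOrderable {G : Type} [Group G] (h : NoLO G) : ¬ LeftOrderable G := by
  intro hG
  obtain ⟨x, y, hxy⟩ := hG.1
  have h1 := h _ hG (MonoidHom.id _) x
  have h2 := h _ hG (MonoidHom.id _) y
  simp only [MonoidHom.id_apply] at h1 h2
  exact hxy (by rw [h1, h2])

/-- The general criterion. -/
theorem noLO_of {Γ : Type} [Group Γ] {w : List Letter} (hw : w ∈ words)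
    (A B e : Fin w.length → Γ)
    (alpha : ∀ i, (w.get i).isA = true → A (nx i) = A i ∧ B (nx i) = B i * (e i)⁻¹ ∧
      e i * A i = A i * e i)
    (beta : ∀ i, (w.get i).isA = false → B (nx i) = B i ∧ A (nx i) = A i * e i ∧
      e i * B i = B i * e i)
    (signA : ∀ (X : Type) [LinearOrder X] (φ : Γ →* Aut X) (i : Fin w.length),
      (w.get i).isA = true → Weak (φ (e i)) (φ (A i)) ∧
        ((w.get i).bounded = true → Bdd (φ (e i)) (φ (A i))))
    (signB : ∀ (X : Type) [LinearOrder X] (φ : Γ →* Aut X) (i : Fin w.length),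
      (w.get i).isA = false → Weak (φ (e i)) (φ (B i)) ∧
        ((w.get i).bounded = true → Bdd (φ (e i)) (φ (B i))))
    (strictA : ∃ i : Fin w.length, (w.get i).isA = true ∧
      ∀ (X : Type) [LinearOrder X] (φ : Γ →* Aut X), Strict (φ (e i)) (φ (A i)))
    (strictB : ∃ i : Fin w.length, (w.get i).isA = false ∧
      ∀ (X : Type) [LinearOrder X] (φ : Γ →* Aut X), Strict (φ (e i)) (φ (B i)))
    (fix : ∀ (X : Type) [LinearOrder X] (φ : Γ →* Aut X) (x : X),
      (∀ i, φ (A i) x = x ∧ φ (B i) x = x) → ∀ γ, φ γ x = x) : NoLO Γ := by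
  obtain ⟨h0, hc⟩ := words_crit w hw
  let ix : ℕ → Fin w.length := fun j => ⟨j % w.length, Nat.mod_lt _ h0⟩
  have ixN : ∀ j, ix (j + w.length) = ix j := fun j =>
    Fin.ext (Nat.add_mod_right j w.length)
  have ix1 : ∀ j, ix (j + 1) = nx (ix j) := fun j => Fin.ext (by
    simp only [ix, nx]; rw [Nat.mod_add_mod])
  have ixv : ∀ i : Fin w.length, ix i.1 = i := fun i => Fin.ext (Nat.mod_eq_of_lt i.2)
  have hl : ∀ j, per w j = w.get (ix j) := by
    intro j
    unfold per
    rw [List.getD_eq_getElem _ _ (Nat.mod_lt _ h0)]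
    rfl
  have cyc : ∀ (X : Type) [LinearOrder X] (φ : Γ →* Aut X), Cyc w.length (per w)
      (fun j => φ (A (ix j))) (fun j => φ (B (ix j))) (fun j => φ (e (ix j))) := by
    intro X _ φ
    refine ⟨h0, fun j => by simp only [ixN], fun j => by simp only [ixN], fun j => by
      rw [hl, hl, ixN], ?_, ?_, ?_, ?_⟩
    · intro j hj
      rw [hl] at hj
      obtain ⟨h1, h2, h3⟩ := alpha _ hj
      obtain ⟨h4, h5⟩ := signA X φ _ hj
      refine ⟨?_, ?_, h4, fun h => h5 ?_⟩
      · simp only [ix1, h1]
      · simp only [ix1, h2, map_mul, map_inv]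
      · rw [hl] at h; rw [h]; rfl
    · intro j hj
      rw [hl] at hj
      obtain ⟨h1, h2, h3⟩ := beta _ hj
      obtain ⟨h4, h5⟩ := signB X φ _ hj
      refine ⟨?_, ?_, h4, fun h => h5 ?_⟩
      · simp only [ix1, h1]
      · simp only [ix1, h2, map_mul]
      · rw [hl] at h; rw [h]; rfl
    · obtain ⟨i, h1, h2⟩ := strictA
      refine ⟨i.1, ?_, ?_⟩
      · rw [hl, ixv]; exact h1
      · simp only [ixv]; exact h2 X φ
    · obtain ⟨i, h1, h2⟩ := strictB
      refine ⟨i.1, ?_, ?_⟩
      · rw [hl, ixv]; exact h1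
      · simp only [ixv]; exact h2 X φ
  intro H _ hH f γ
  refine hom_trivial (A (ix 0) * B (ix 0) * (A (ix 0))⁻¹ * (B (ix 0))⁻¹) ?_ ?_ H hH f γ
  · intro X _ φ x hx γ
    have hy : Cyc.com (fun j => φ (A (ix j))) (fun j => φ (B (ix j))) 0 x = x := by
      simp only [map_mul, map_inv] at hx
      exact hx
    obtain ⟨h1, h2⟩ := (cyc X φ).fixed hc hy
    refine fix X φ x ?_ γ
    -- propagate along the chain
    have key : ∀ j, φ (A (ix j)) x = x ∧ φ (B (ix j)) x = x := by
      intro j
      induction j with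
      | zero => exact ⟨h1, h2⟩
      | succ j ih =>
        obtain ⟨h3, h4⟩ := ih
        cases hk : (w.get (ix j)).isA
        · obtain ⟨h5, h6, -⟩ := beta _ hk
          obtain ⟨h7, -⟩ := signB X φ _ hk
          rw [ix1, h5, h6, map_mul, mul_apply, h7.fix x h4]
          exact ⟨h3, h4⟩
        · obtain ⟨h5, h6, -⟩ := alpha _ hk
          obtain ⟨h7, -⟩ := signA X φ _ hk
          rw [ix1, h5, h6, map_mul, mul_apply, map_inv, h7.inv_fix h3]
          exact ⟨h3, h4⟩
    intro i
    have := key i.1
    rwa [ixv] at this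
  · intro X _ _ φ hpos
    refine (cyc X φ).not_pos hc fun y => ?_
    have := hpos y
    simp only [map_mul, map_inv] at this
    exact this

/-! ### signs of powers -/

section pow
variable {X : Type*} [LinearOrder X] (g : Aut X) (z : X)

theorem pow_up (h : z ≤ g z) (n : ℕ) : z ≤ (g ^ n) z := by
  induction n with
  | zero => exact le_rfl
  | succ n ih =>
    rw [pow_succ', mul_apply]
    exact h.trans ((g.le_iff).mpr ih)

theorem pow_down (h : g z ≤ z) (n : ℕ) : (g ^ n) z ≤ z := by
  induction n with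
  | zero => exact le_rfl
  | succ n ih =>
    rw [pow_succ', mul_apply]
    exact ((g.le_iff).mpr ih).trans h

theorem pow_up_lt (h : z < g z) {n : ℕ} (hn : 0 < n) : z < (g ^ n) z := by
  obtain ⟨m, rfl⟩ : ∃ m, n = m + 1 := ⟨n - 1, by omega⟩
  rw [pow_succ', mul_apply]
  exact h.trans_le ((g.le_iff).mpr (pow_up g z h.le m))

theorem pow_down_lt (h : g z < z) {n : ℕ} (hn : 0 < n) : (g ^ n) z < z := by
  obtain ⟨m, rfl⟩ : ∃ m, n = m + 1 := ⟨n - 1, by omega⟩
  rw [pow_succ', mul_apply]
  exact ((g.le_iff).mpr (pow_down g z h.le m)).trans_lt h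

theorem pow_fix (h : g z = z) (n : ℕ) : (g ^ n) z = z :=
  le_antisymm (pow_down g z h.le n) (pow_up g z h.ge n)

variable {g z}

theorem pos_of_pow {n : ℕ} (h : z < (g ^ n) z) : z < g z := by
  by_contra hcon
  exact absurd h (not_lt.mpr (pow_down g z (not_lt.mp hcon) n))

theorem neg_of_pow {n : ℕ} (h : (g ^ n) z < z) : g z < z := by
  by_contra hcon
  exact absurd h (not_lt.mpr (pow_up g z (not_lt.mp hcon) n))

theorem fix_of_pow {n : ℕ} (hn : 0 < n) (h : (g ^ n) z = z) : g z = z := by
  rcases lt_trichotomy (g z) z with h1 | h1 | h1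
  · exact absurd h (pow_down_lt g z h1 hn).ne
  · exact h1
  · exact absurd h (pow_up_lt g z h1 hn).ne'

theorem weak_pow (g : Aut X) (p : ℕ) {q : ℕ} (hq : 0 < q) : Weak (g ^ p) (g ^ q) where
  comm := by rw [← pow_add, ← pow_add, add_comm]
  pos z h := pow_up g z (pos_of_pow h).le p
  neg z h := pow_down g z (neg_of_pow h).le p
  fix z h := pow_fix g z (fix_of_pow hq h) p

theorem bdd_pow (g : Aut X) {p q : ℕ} (hq : 0 < q) (hpq : p ≤ q) : Bdd (g ^ p) (g ^ q) where
  toWeak := weak_pow g p hq
  ple z h := by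
    obtain ⟨m, rfl⟩ := Nat.exists_eq_add_of_le hpq
    rw [pow_add, mul_apply, le_iff]
    exact pow_up g z (pos_of_pow h).le m
  nle z h := by
    obtain ⟨m, rfl⟩ := Nat.exists_eq_add_of_le hpq
    rw [pow_add, mul_apply, le_iff]
    exact pow_down g z (neg_of_pow h).le m

theorem strict_pow (g : Aut X) {p q : ℕ} (hp : 0 < p) : Strict (g ^ p) (g ^ q) where
  pos z h := pow_up_lt g z (pos_of_pow h) hp
  neg z h := pow_down_lt g z (neg_of_pow h) hp

end pow

end Pool.Agent.K7.H39.TB
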