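import Pool.Agent.Y479.LS.Tangle

set_option autoImplicit false

/-!
# Closed chains of tangles on three strands: the definitions used in the statement

A word in the letters `a`, `A` (first kind) and `b`, `B` (second kind) is read cyclically. A letter
of the first kind stands for a tangle between the strands 1 and 2 of a closed braid on three strands,
a letter of the second kind for a tangle between the strands 2 and 3.
-/

namespace Pool.Agent.K7.H39.TB

open Pool.Agent.Y479.LS

/-- The letters: `a`, `A` are of the first kind, `b`, `B` are of the second kind; the tangles for the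
letters `a`, `b` are bounded, those for `A`, `B` are arbitrary. -/
inductive Letter
  | a | b | A | B
  deriving DecidableEq, Repr

/-- letters of the first kind -/
def Letter.isA : Letter → Bool
  | .a => true
  | .A => true
  | _ => false

/-- letters for bounded tangles -/
def Letter.bounded : Letter → Bool
  | .a => true
  | .b => true
  | _ => false

/-- The four words. -/
def words : List (List Letter) :=
  [[.a, .b, .a, .b, .a, .b, .a, .b, .a, .b],
   [.a, .a, .b, .a, .a, .b, .a, .a, .b],
   [.a, .b, .b, .a, .b, .b, .a, .b, .b],
   [.A, .b, .a, .B, .a, .b]]

/-- the cyclic successor -/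
def nx {N : ℕ} (i : Fin N) : Fin N := ⟨(i.1 + 1) % N, Nat.mod_lt _ i.pos⟩

/-- A group with two commuting elements `A`, `a`: the fundamental group of the double branched cover
of a ball along a tangle, and the elements `A = west⁻¹ east`, `a = north⁻¹ south` of the boundary
torus. For a single crossing `a = A`. -/
structure Piece where
  /-- the group -/
  P : Type
  grp : Group P
  A : P
  a : P
  comm : a * A = A * a

attribute [instance] Piece.grp

/-! ### alternating tangle diagrams -/

namespace Tan

variable (T : Tangle)

/-- Generators: the regions of the diagram. -/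
abbrev Gen : Type := T.W ⊕ T.B

def gW (v : T.W) : FreeGroup (Gen T) := FreeGroup.of (Sum.inl v)
def gB (v : T.B) : FreeGroup (Gen T) := FreeGroup.of (Sum.inr v)

/-- The crossing relators `b₂⁻¹ b₁ = w₁⁻¹ w₂`, and `west = 1`, `north = 1`. -/
def relators : Set (FreeGroup (Gen T)) :=
  {r | (∃ c, r = (gB T (T.b₂ c))⁻¹ * gB T (T.b₁ c) *
      ((gW T (T.w₁ c))⁻¹ * gW T (T.w₂ c))⁻¹) ∨ r = gW T T.west ∨ r = gB T T.north}

/-- The fundamental group of the double branched cover of the ball along the tangle `T`. -/
abbrev Grp : Type := PresentedGroup (relators T)

variable {T}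

/-- the element of a white region -/
def W (v : T.W) : Grp T := PresentedGroup.mk _ (gW T v)
/-- the element of a black region -/
def B (v : T.B) : Grp T := PresentedGroup.mk _ (gB T v)

end Tan

/-- A tangle: the rational tangle `p / q ≥ 0`, or an alternating tangle diagram whose boundary
elements `south` and `east` commute (as for all diagrams in the plane, where they lie in the
fundamental group of a boundary torus). -/
inductive Tang : Type 1
  | rat (p q : ℕ) (hq : 0 < q)
  | alt (T : Tangle) (h : Tan.B (T := T) T.south * Tan.W T.east = Tan.W T.east * Tan.B T.south)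

namespace Tang

/-- The double branched cover along the tangle: a solid torus with `A = t ^ q`, `a = t ^ p`, if the
tangle is the rational tangle `p / q`. -/
def piece : Tang → Piece
  | rat p q _ =>
    { P := Multiplicative ℤ
      grp := inferInstance
      A := Multiplicative.ofAdd (q : ℤ)
      a := Multiplicative.ofAdd (p : ℤ)
      comm := mul_comm _ _ }
  | alt T h =>
    { P := Tan.Grp T
      grp := inferInstance
      A := Tan.W T.east
      a := Tan.B T.south
      comm := h }

/-- Rational tangles with `p / q ≤ 1`, and alternating diagrams with a crossing at which both black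
regions are `north` and `south`, so that the tangle is a sum of tangles, one of which is this
crossing. -/
def Bounded : Tang → Prop
  | rat p q _ => p ≤ q
  | alt T _ => ∃ c, T.b₁ c = T.south ∧ T.b₂ c = T.north

/-- All tangles except the tangles `0 / q`. -/
def Proper : Tang → Prop
  | rat p _ _ => 0 < p
  | alt _ _ => True

end Tang

/-! ### the group of a closed chain -/

namespace Glued

variable {N : ℕ} (M : Fin N → Piece)

/-- Generators: the regions `A i` between the strands 2 and 3, the regions `B i` between the strands
1 and 2, and the elements of the pieces. -/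
abbrev Gen : Type := (Fin N ⊕ Fin N) ⊕ (Σ i, (M i).P)

def gA (i : Fin N) : FreeGroup (Gen M) := FreeGroup.of (Sum.inl (Sum.inl i))
def gB (i : Fin N) : FreeGroup (Gen M) := FreeGroup.of (Sum.inl (Sum.inr i))
def gP (i : Fin N) (x : (M i).P) : FreeGroup (Gen M) := FreeGroup.of (Sum.inr ⟨i, x⟩)

/-- The relations: the multiplication tables of the pieces; for a letter of the first kind `A i` is
the element `A` of the piece, `A (i + 1) = A i`, `B (i + 1) = B i a⁻¹`; for a letter of the second
kind `B i` is the element `A` of the piece, `B (i + 1) = B i`, `A (i + 1) = A i a`. The inner region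
and the outer region are equal to `1`. -/
def relators (κ : Fin N → Bool) : Set (FreeGroup (Gen M)) :=
  {r | (∃ (i : Fin N) (x y : (M i).P), r = gP M i x * gP M i y * (gP M i (x * y))⁻¹) ∨
    (∃ i, κ i = true ∧ (r = gA M i * (gP M i (M i).A)⁻¹ ∨ r = gA M (nx i) * (gA M i)⁻¹ ∨
      r = gB M (nx i) * (gB M i * (gP M i (M i).a)⁻¹)⁻¹)) ∨
    (∃ i, κ i = false ∧ (r = gB M i * (gP M i (M i).A)⁻¹ ∨ r = gB M (nx i) * (gB M i)⁻¹ ∨
      r = gA M (nx i) * (gA M i * gP M i (M i).a)⁻¹))}

/-- The group of the closed chain of the pieces `M i`. -/
abbrev Grp (κ : Fin N → Bool) : Type := PresentedGroup (relators M κ)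

end Glued

/-- The fundamental group of the double branched cover of the closed chain with the cyclic word `w`
and the tangles `T i`. -/
abbrev ChainGrp (w : List Letter) (T : Fin w.length → Tang) : Type :=
  Glued.Grp (fun i => (T i).piece) (fun i => (w.get i).isA)

end Pool.Agent.K7.H39.TB
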