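import Pool.Agent.K7.H39.TB.Pub

set_option autoImplicit false

/-!
# Sectors of a pair of order automorphisms at a point

For a pair `(A, B)` of automorphisms of a linear order and a point `y`, the order type of
`u = A⁻¹ y`, `v = B⁻¹ y`, `w = B⁻¹ A⁻¹ y` and `y` gives one of eight sectors (or the zero state
`u = v = y`). It is shown how the sector changes if `B` is replaced by `B a⁻¹`, where `a` commutes
with `A` and has the same sign as `A` at each point, and if `A` is replaced by `A b`, where `b`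
commutes with `B` and has the same sign as `B`.
-/

namespace Pool.Agent.K7.H39.TB

open Pool.Agent.Y479.LS Aut

/-- The largest possible new sector, without a jump. -/
def step : Letter → ℕ → ℕ
  | .a, k => if k % 4 = 0 then k else k + 1
  | .b, k => if k % 4 = 2 then k else k + 1
  | .A, k => (k + 3) / 4 * 4
  | .B, k => (k + 1) / 4 * 4 + 2

/-- The largest possible new sector, with jumps. -/
def stepJ : Letter → ℕ → ℕ
  | .a, k => if k % 4 = 0 then k else if k % 8 = 6 then k + 2 else k + 1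
  | .b, k => step .b k
  | .A, k => step .A k
  | .B, k => step .B k

theorem step_mono (l : Letter) {k k' : ℕ} (h : k ≤ k') : step l k ≤ step l k' := by
  cases l <;> simp only [step]
  · split_ifs <;> omega
  · split_ifs <;> omega
  · omega
  · omega

theorem stepJ_mono (l : Letter) {k k' : ℕ} (h : k ≤ k') : stepJ l k ≤ stepJ l k' := by
  cases l
  · simp only [stepJ]; split_ifs <;> omega
  · exact step_mono .b h
  · exact step_mono .A h
  · exact step_mono .B h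

section
variable {X : Type*} [LinearOrder X]

/-- `a` commutes with `A` and has the same sign as `A` at each point, or is zero. -/
structure Weak (a A : Aut X) : Prop where
  comm : a * A = A * a
  pos : ∀ z, z < A z → z ≤ a z
  neg : ∀ z, A z < z → a z ≤ z
  fix : ∀ z, A z = z → a z = z

/-- Moreover `a` lies between zero and `A`. -/
structure Bdd (a A : Aut X) : Prop extends Weak a A where
  ple : ∀ z, z < A z → a z ≤ A z
  nle : ∀ z, A z < z → A z ≤ a z

/-- `a` has the same sign as `A` at each point. -/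
structure Strict (a A : Aut X) : Prop where
  pos : ∀ z, z < A z → z < a z
  neg : ∀ z, A z < z → a z < z

/-- The eight sectors. -/
def Sec (u v w y : X) : ℕ → Prop
  | 0 => y < u ∧ v ≤ y ∧ w ≤ y
  | 1 => v < u ∧ u ≤ y
  | 2 => u ≤ v ∧ v < y
  | 3 => u < y ∧ y ≤ v ∧ w < y
  | 4 => u < y ∧ y ≤ v ∧ y ≤ w
  | 5 => u < v ∧ y ≤ u
  | 6 => v ≤ u ∧ y < v
  | 7 => y < u ∧ v ≤ y ∧ y < w
  | _ => False

variable {a A b B : Aut X} {u v w w' y z : X}

theorem Weak.up (h : Weak a A) (hz : z ≤ A z) : z ≤ a z := by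
  rcases hz.lt_or_eq with h1 | h1
  · exact h.pos z h1
  · exact (h.fix z h1.symm).ge

theorem Weak.down (h : Weak a A) (hz : A z ≤ z) : a z ≤ z := by
  rcases hz.lt_or_eq with h1 | h1
  · exact h.neg z h1
  · exact (h.fix z h1).le

theorem Weak.inv_up (h : Weak a A) (hz : A z ≤ z) : z ≤ a⁻¹ z := by
  rw [← a.le_iff, self_inv]; exact h.down hz

theorem Weak.inv_down (h : Weak a A) (hz : z ≤ A z) : a⁻¹ z ≤ z := by
  rw [← a.le_iff, self_inv]; exact h.up hz

theorem Weak.inv_fix (h : Weak a A) (hz : A z = z) : a⁻¹ z = z := by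
  rw [← a.inj, self_inv, h.fix z hz]

theorem Bdd.le_of (h : Bdd a A) (hz : z ≤ A z) : a z ≤ A z := by
  rcases hz.lt_or_eq with h1 | h1
  · exact h.ple z h1
  · rw [h.fix z h1.symm]; exact h1.le

theorem Bdd.ge_of (h : Bdd a A) (hz : A z ≤ z) : A z ≤ a z := by
  rcases hz.lt_or_eq with h1 | h1
  · exact h.nle z h1
  · rw [h.fix z h1]; exact h1.le

theorem Sec.unique {r r' : ℕ} (hr : r < 8) (hr' : r' < 8) (h : Sec u v w y r)
    (h' : Sec u v w y r') : r = r' := by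
  interval_cases r <;> interval_cases r' <;> first
    | rfl
    | (exfalso; simp only [Sec] at h h'; obtain ⟨h1, h2⟩ := h; obtain ⟨h3, h4⟩ := h'; order)

theorem Sec.exists (u v w y : X) (h : ¬ (u = y ∧ v = y)) : ∃ r, 1 ≤ r ∧ r ≤ 8 ∧
    Sec u v w y (r % 8) := by
  rcases lt_trichotomy u y with h1 | h1 | h1
  · rcases lt_or_ge v y with h2 | h2
    · rcases lt_or_ge v u with h3 | h3
      · exact ⟨1, by norm_num, by norm_num, h3, h1.le⟩
      · exact ⟨2, by norm_num, by norm_num, h3, h2⟩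
    · rcases lt_or_ge w y with h3 | h3
      · exact ⟨3, by norm_num, by norm_num, h1, h2, h3⟩
      · exact ⟨4, by norm_num, by norm_num, h1, h2, h3⟩
  · rcases lt_trichotomy v y with h2 | h2 | h2
    · exact ⟨1, by norm_num, by norm_num, h1 ▸ h2, h1.le⟩
    · exact absurd ⟨h1, h2⟩ h
    · exact ⟨5, by norm_num, by norm_num, h1 ▸ h2, h1.ge⟩
  · rcases lt_or_ge y v with h2 | h2
    · rcases lt_or_ge u v with h3 | h3
      · exact ⟨5, by norm_num, by norm_num, h3, h1.le⟩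
      · exact ⟨6, by norm_num, by norm_num, h3, h2⟩
    · rcases lt_or_ge y w with h3 | h3
      · exact ⟨7, by norm_num, by norm_num, h1, h2, h3⟩
      · exact ⟨8, by norm_num, by norm_num, h1, h2, h3⟩

/-- The equations for the points `u = A⁻¹ y`, `v = B⁻¹ y`, `w = B⁻¹ A⁻¹ y`, `w' = A⁻¹ B⁻¹ y`. -/
structure St (A B : Aut X) (u v w w' y : X) : Prop where
  hu : A u = y
  hv : B v = y
  hw : B w = u
  hw' : A w' = v
  le : w ≤ w'

namespace St
variable (S : St A B u v w w' y)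
include S

theorem f1 : w' < u ↔ v < y := by rw [← A.lt_iff, S.hw', S.hu]
theorem f2 : w < v ↔ u < y := by rw [← B.lt_iff, S.hw, S.hv]
theorem f3 : v < w ↔ y < u := by rw [← B.lt_iff, S.hw, S.hv]
theorem f4 : v ≤ w ↔ y ≤ u := by rw [← B.le_iff, S.hw, S.hv]
theorem Ay_pos (h : u < y) : y < A y := by rw [← A.lt_iff, S.hu] at h; exact h
theorem Ay_fix (h : u = y) : A y = y := by rw [← A.inj, S.hu] at h; exact h.symm
theorem By_neg (h : y ≤ v) : B y ≤ y := by rw [← B.le_iff, S.hv] at h; exact h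
theorem By_pos (h : v ≤ y) : y ≤ B y := by rw [← B.le_iff, S.hv] at h; exact h
theorem By_fix (h : v = y) : B y = y := by rw [← B.inj, S.hv] at h; exact h.symm
/-- the sign of `A` at `v` -/
theorem Av_neg (h : v ≤ w) : A v ≤ v := by
  have h1 := h.trans S.le
  rw [← A.le_iff, S.hw'] at h1; exact h1
theorem Av_pos (h : w' < v) : v < A v := by
  rw [← A.lt_iff, S.hw'] at h; exact h
theorem Aw_neg (h : v ≤ w) : A w ≤ w := by
  have h1 := S.le
  rw [← A.le_iff, S.hw'] at h1; exact h1.trans h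

end St

/-- Change of the sector by a bounded layer of the first type. -/
theorem alpha_bdd (S : St A B u v w w' y) (h : Bdd a A) {k : ℕ} (hs : Sec u v w y (k % 8)) :
    ∃ k', k ≤ k' ∧ k' ≤ stepJ .a k ∧ (k' ≤ step .a k ∨ (k % 8 = 6 ∧ a v ≤ y ∧ a w ≤ y)) ∧
      Sec u (a v) (a w) y (k' % 8) := by
  have hk : k % 8 < 8 := Nat.mod_lt _ (by norm_num)
  have hW := h.toWeak
  obtain ⟨r, hr⟩ : ∃ r, k % 8 = r := ⟨_, rfl⟩
  rw [hr] at hs hk
  have e0 : ∀ m, (k + m) % 8 = (r + m) % 8 := by intro m; omega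
  have s4 : k % 4 = r % 4 := by omega
  simp only [stepJ, step, s4, hr]
  interval_cases r
  · obtain ⟨h1, h2, h3⟩ := hs
    refine ⟨k, le_rfl, by simp, Or.inl (by simp), ?_⟩
    rw [hr]
    have h4 := S.f4.mpr h1.le
    exact ⟨h1, (hW.down (S.Av_neg h4)).trans h2, (hW.down (S.Aw_neg h4)).trans h3⟩
  · obtain ⟨h1, h2⟩ := hs
    rcases lt_or_ge (a v) u with h3 | h3
    · refine ⟨k, le_rfl, by simp, Or.inl (by simp), ?_⟩
      rw [hr]; exact ⟨h3, h2⟩
    · refine ⟨k + 1, by omega, by simp, Or.inl (by simp), ?_⟩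
      rw [e0]
      refine ⟨h3, ?_⟩
      rcases le_total v (A v) with h4 | h4
      · refine (h.le_of h4).trans_lt ?_
        rw [← S.hu, A.lt_iff]; exact h1
      · exact (hW.down h4).trans_lt (h1.trans_le h2)
  · obtain ⟨h1, h2⟩ := hs
    have h3 := (S.f1.mpr h2)
    have h4 := S.Av_pos (h3.trans_le h1)
    have h5 := hW.up h4.le
    rcases lt_or_ge (a v) y with h6 | h6
    · refine ⟨k, le_rfl, by simp, Or.inl (by simp), ?_⟩
      rw [hr]; exact ⟨h1.trans h5, h6⟩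
    · refine ⟨k + 1, by omega, by simp, Or.inl (by simp), ?_⟩
      rw [e0]
      refine ⟨h1.trans_lt h2, h6, ?_⟩
      have h7 : w' ≤ A w' := by rw [S.hw']; exact (h3.trans_le h1).le
      have h8 := h.le_of h7
      rw [S.hw'] at h8
      exact ((a.le_iff).mpr S.le).trans_lt (h8.trans_lt h2)
  · obtain ⟨h1, h2, h3⟩ := hs
    have h4 : y ≤ a v := (hW.up (S.Ay_pos h1).le).trans ((a.le_iff).mpr h2)
    rcases lt_or_ge (a w) y with h6 | h6
    · refine ⟨k, le_rfl, by simp, Or.inl (by simp), ?_⟩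
      rw [hr]; exact ⟨h1, h4, h6⟩
    · refine ⟨k + 1, by omega, by simp, Or.inl (by simp), ?_⟩
      rw [e0]; exact ⟨h1, h4, h6⟩
  · obtain ⟨h1, h2, h3⟩ := hs
    have h4 := hW.up (S.Ay_pos h1).le
    refine ⟨k, le_rfl, by simp, Or.inl (by simp), ?_⟩
    rw [hr]; exact ⟨h1, h4.trans ((a.le_iff).mpr h2), h4.trans ((a.le_iff).mpr h3)⟩
  · obtain ⟨h1, h2⟩ := hs
    have h3 := S.f4.mpr h2
    have h4 := S.Av_neg h3
    have h5 : y < a v := by
      refine lt_of_lt_of_le ?_ (h.ge_of h4)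
      rw [← S.hu, A.lt_iff]; exact h1
    rcases lt_or_ge u (a v) with h6 | h6
    · refine ⟨k, le_rfl, by simp, Or.inl (by simp), ?_⟩
      rw [hr]; exact ⟨h6, h2⟩
    · refine ⟨k + 1, by omega, by simp, Or.inl (by simp), ?_⟩
      rw [e0]; exact ⟨h6, h5⟩
  · obtain ⟨h1, h2⟩ := hs
    have hy : y < u := h2.trans_le h1
    have h3 := S.f4.mpr hy.le
    have h4 := hW.down (S.Av_neg h3)
    rcases lt_or_ge y (a v) with h5 | h5
    · refine ⟨k, le_rfl, by simp, Or.inl (by simp), ?_⟩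
      rw [hr]; exact ⟨h4.trans h1, h5⟩
    · rcases lt_or_ge y (a w) with h6 | h6
      · refine ⟨k + 1, by omega, by simp, Or.inl (by simp), ?_⟩
        rw [e0]; exact ⟨hy, h5, h6⟩
      · refine ⟨k + 2, by omega, by simp, Or.inr ⟨rfl, h5, h6⟩, ?_⟩
        rw [e0]; exact ⟨hy, h5, h6⟩
  · obtain ⟨h1, h2, h3⟩ := hs
    have h4 := hW.down (S.Av_neg (S.f4.mpr h1.le))
    rcases lt_or_ge y (a w) with h6 | h6
    · refine ⟨k, le_rfl, by simp, Or.inl (by simp), ?_⟩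
      rw [hr]; exact ⟨h1, h4.trans h2, h6⟩
    · refine ⟨k + 1, by omega, by simp, Or.inl (by simp), ?_⟩
      rw [e0]; exact ⟨h1, h4.trans h2, h6⟩

/-- Change of the sector by an unbounded layer of the first type. -/
theorem alpha_unb (S : St A B u v w w' y) (hW : Weak a A) {k : ℕ} (hs : Sec u v w y (k % 8)) :
    ∃ k', k ≤ k' ∧ k' ≤ step .A k ∧ Sec u (a v) (a w) y (k' % 8) := by
  have hk : k % 8 < 8 := Nat.mod_lt _ (by norm_num)
  obtain ⟨r, hr⟩ : ∃ r, k % 8 = r := ⟨_, rfl⟩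
  rw [hr] at hs hk
  have e0 : ∀ m, (k + m) % 8 = (r + m) % 8 := by intro m; omega
  have s4 : (k + 3) / 4 * 4 = k + (8 - r) % 4 := by omega
  simp only [step, s4]
  interval_cases r
  · obtain ⟨h1, h2, h3⟩ := hs
    refine ⟨k, le_rfl, by simp, ?_⟩
    rw [hr]
    have h4 := S.f4.mpr h1.le
    exact ⟨h1, (hW.down (S.Av_neg h4)).trans h2, (hW.down (S.Aw_neg h4)).trans h3⟩
  · obtain ⟨h1, h2⟩ := hs
    rcases lt_or_ge (a v) u with h3 | h3
    · refine ⟨k, le_rfl, by simp, ?_⟩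
      rw [hr]; exact ⟨h3, h2⟩
    · rcases lt_or_ge (a v) y with h4 | h4
      · refine ⟨k + 1, by omega, by omega, ?_⟩
        rw [e0]; exact ⟨h3, h4⟩
      · have h5 : u < y := by
          refine lt_of_le_of_ne h2 fun h6 => ?_
          have h7 := hW.fix y (S.Ay_fix h6)
          have h8 := (a.lt_iff).mpr (h1.trans_le h2)
          rw [h7] at h8
          exact absurd h8 (not_lt.mpr h4)
        rcases lt_or_ge (a w) y with h6 | h6
        · refine ⟨k + 2, by omega, by omega, ?_⟩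
          rw [e0]; exact ⟨h5, h4, h6⟩
        · refine ⟨k + 3, by omega, by omega, ?_⟩
          rw [e0]; exact ⟨h5, h4, h6⟩
  · obtain ⟨h1, h2⟩ := hs
    have h3 := (S.f1.mpr h2)
    have h4 := S.Av_pos (h3.trans_le h1)
    have h5 := hW.up h4.le
    rcases lt_or_ge (a v) y with h6 | h6
    · refine ⟨k, le_rfl, by simp, ?_⟩
      rw [hr]; exact ⟨h1.trans h5, h6⟩
    · rcases lt_or_ge (a w) y with h7 | h7
      · refine ⟨k + 1, by omega, by omega, ?_⟩
        rw [e0]; exact ⟨h1.trans_lt h2, h6, h7⟩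
      · refine ⟨k + 2, by omega, by omega, ?_⟩
        rw [e0]; exact ⟨h1.trans_lt h2, h6, h7⟩
  · obtain ⟨h1, h2, h3⟩ := hs
    have h4 : y ≤ a v := (hW.up (S.Ay_pos h1).le).trans ((a.le_iff).mpr h2)
    rcases lt_or_ge (a w) y with h6 | h6
    · refine ⟨k, le_rfl, by simp, ?_⟩
      rw [hr]; exact ⟨h1, h4, h6⟩
    · refine ⟨k + 1, by omega, by omega, ?_⟩
      rw [e0]; exact ⟨h1, h4, h6⟩
  · obtain ⟨h1, h2, h3⟩ := hs
    have h4 := hW.up (S.Ay_pos h1).le
    refine ⟨k, le_rfl, by simp, ?_⟩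
    rw [hr]; exact ⟨h1, h4.trans ((a.le_iff).mpr h2), h4.trans ((a.le_iff).mpr h3)⟩
  · obtain ⟨h1, h2⟩ := hs
    have h3 := S.f4.mpr h2
    have h4 := S.Av_neg h3
    rcases lt_or_ge u (a v) with h6 | h6
    · refine ⟨k, le_rfl, by simp, ?_⟩
      rw [hr]; exact ⟨h6, h2⟩
    · rcases lt_or_ge y (a v) with h5 | h5
      · refine ⟨k + 1, by omega, by omega, ?_⟩
        rw [e0]; exact ⟨h6, h5⟩
      · have hy : y < u := by
          refine lt_of_le_of_ne h2 fun h7 => ?_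
          have h8 := hW.fix y (S.Ay_fix h7.symm)
          have h9 : a y < a v := (a.lt_iff).mpr (h2.trans_lt h1)
          rw [h8] at h9
          exact absurd h9 (not_lt.mpr h5)
        rcases lt_or_ge y (a w) with h7 | h7
        · refine ⟨k + 2, by omega, by omega, ?_⟩
          rw [e0]; exact ⟨hy, h5, h7⟩
        · refine ⟨k + 3, by omega, by omega, ?_⟩
          rw [e0]; exact ⟨hy, h5, h7⟩
  · obtain ⟨h1, h2⟩ := hs
    have hy : y < u := h2.trans_le h1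
    have h3 := S.f4.mpr hy.le
    have h4 := hW.down (S.Av_neg h3)
    rcases lt_or_ge y (a v) with h5 | h5
    · refine ⟨k, le_rfl, by simp, ?_⟩
      rw [hr]; exact ⟨h4.trans h1, h5⟩
    · rcases lt_or_ge y (a w) with h6 | h6
      · refine ⟨k + 1, by omega, by omega, ?_⟩
        rw [e0]; exact ⟨hy, h5, h6⟩
      · refine ⟨k + 2, by omega, by omega, ?_⟩
        rw [e0]; exact ⟨hy, h5, h6⟩
  · obtain ⟨h1, h2, h3⟩ := hs
    have h4 := hW.down (S.Av_neg (S.f4.mpr h1.le))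
    rcases lt_or_ge y (a w) with h6 | h6
    · refine ⟨k, le_rfl, by simp, ?_⟩
      rw [hr]; exact ⟨h1, h4.trans h2, h6⟩
    · refine ⟨k + 1, by omega, by omega, ?_⟩
      rw [e0]; exact ⟨h1, h4.trans h2, h6⟩

/-- Change of the sector by a bounded layer of the second type. -/
theorem beta_bdd (S : St A B u v w w' y) (h : Bdd b B) {k : ℕ} (hs : Sec u v w y (k % 8)) :
    ∃ k', k ≤ k' ∧ k' ≤ step .b k ∧ Sec (b⁻¹ u) v (b⁻¹ w) y (k' % 8) := by
  have hk : k % 8 < 8 := Nat.mod_lt _ (by norm_num)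
  have hW := h.toWeak
  obtain ⟨r, hr⟩ : ∃ r, k % 8 = r := ⟨_, rfl⟩
  rw [hr] at hs hk
  have e0 : ∀ m, (k + m) % 8 = (r + m) % 8 := by intro m; omega
  have s4 : k % 4 = r % 4 := by omega
  simp only [step, s4]
  -- the sign of `B` at `u`
  have p1 : w ≤ u → b⁻¹ u ≤ u := fun h1 => hW.inv_down (by
    rw [← B.le_iff, S.hw] at h1; exact h1)
  have p2 : u ≤ w → u ≤ b⁻¹ u := fun h1 => hW.inv_up (by
    rw [← B.le_iff, S.hw] at h1; exact h1)
  have p3 : w ≤ u → w ≤ b⁻¹ u := fun h1 => by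
    rw [← b.le_iff, self_inv]
    have := h.le_of (z := w) (by rw [S.hw]; exact h1)
    rwa [S.hw] at this
  have p4 : u ≤ w → b⁻¹ u ≤ w := fun h1 => by
    rw [← b.le_iff, self_inv]
    have := h.ge_of (z := w) (by rw [S.hw]; exact h1)
    rwa [S.hw] at this
  interval_cases r
  · obtain ⟨h1, h2, h3⟩ := hs
    have h4 : w ≤ u := h3.trans h1.le
    have h5 : b⁻¹ w ≤ w := hW.inv_down (by rw [S.hw]; exact h4)
    rcases lt_or_ge y (b⁻¹ u) with h6 | h6
    · refine ⟨k, le_rfl, by simp, ?_⟩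
      rw [hr]; exact ⟨h6, h2, h5.trans h3⟩
    · refine ⟨k + 1, by omega, by simp, ?_⟩
      rw [e0]; exact ⟨(S.f3.mpr h1).trans_le (p3 h4), h6⟩
  · obtain ⟨h1, h2⟩ := hs
    have h3 : w ≤ u := S.le.trans (S.f1.mpr (h1.trans_le h2)).le
    rcases lt_or_ge v (b⁻¹ u) with h6 | h6
    · refine ⟨k, le_rfl, by simp, ?_⟩
      rw [hr]; exact ⟨h6, (p1 h3).trans h2⟩
    · refine ⟨k + 1, by omega, by simp, ?_⟩
      rw [e0]; exact ⟨h6, h1.trans_le h2⟩
  · obtain ⟨h1, h2⟩ := hs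
    have h3 : w ≤ u := S.le.trans (S.f1.mpr h2).le
    refine ⟨k, le_rfl, by simp, ?_⟩
    rw [hr]; exact ⟨(p1 h3).trans h1, h2⟩
  · obtain ⟨h1, h2, h3⟩ := hs
    have h4 : b⁻¹ u < y := by
      rcases le_total w u with h5 | h5
      · exact (p1 h5).trans_lt h1
      · exact (p4 h5).trans_lt h3
    rcases lt_or_ge (b⁻¹ w) y with h6 | h6
    · refine ⟨k, le_rfl, by simp, ?_⟩
      rw [hr]; exact ⟨h4, h2, h6⟩
    · refine ⟨k + 1, by omega, by simp, ?_⟩
      rw [e0]; exact ⟨h4, h2, h6⟩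
  · obtain ⟨h1, h2, h3⟩ := hs
    have h4 : u ≤ w := h1.le.trans h3
    have h5 : w ≤ b⁻¹ w := hW.inv_up (by rw [S.hw]; exact h4)
    rcases lt_or_ge (b⁻¹ u) y with h6 | h6
    · refine ⟨k, le_rfl, by simp, ?_⟩
      rw [hr]; exact ⟨h6, h2, h3.trans h5⟩
    · refine ⟨k + 1, by omega, by simp, ?_⟩
      rw [e0]; exact ⟨(p4 h4).trans_lt (S.f2.mpr h1), h6⟩
  · obtain ⟨h1, h2⟩ := hs
    have h4 : u ≤ w := h1.le.trans (S.f4.mpr h2)
    have h5 : y ≤ b⁻¹ u := h2.trans (p2 h4)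
    rcases lt_or_ge (b⁻¹ u) v with h6 | h6
    · refine ⟨k, le_rfl, by simp, ?_⟩
      rw [hr]; exact ⟨h6, h5⟩
    · refine ⟨k + 1, by omega, by simp, ?_⟩
      rw [e0]; exact ⟨h6, h2.trans_lt h1⟩
  · obtain ⟨h1, h2⟩ := hs
    refine ⟨k, le_rfl, by simp, ?_⟩
    rw [hr]
    have h3 : v ≤ b⁻¹ v := hW.inv_up (by rw [S.hv]; exact h2.le)
    exact ⟨h3.trans ((b⁻¹.le_iff).mpr h1), h2⟩
  · obtain ⟨h1, h2, h3⟩ := hs
    have h4 : y < b⁻¹ u := by
      rcases le_total w u with h5 | h5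
      · exact h3.trans_le (p3 h5)
      · exact h1.trans_le (p2 h5)
    rcases lt_or_ge y (b⁻¹ w) with h6 | h6
    · refine ⟨k, le_rfl, by simp, ?_⟩
      rw [hr]; exact ⟨h4, h2, h6⟩
    · refine ⟨k + 1, by omega, by simp, ?_⟩
      rw [e0]; exact ⟨h4, h2, h6⟩

/-- Change of the sector by an unbounded layer of the second type. -/
theorem beta_unb (S : St A B u v w w' y) (hW : Weak b B) {k : ℕ} (hs : Sec u v w y (k % 8)) :
    ∃ k', k ≤ k' ∧ k' ≤ step .B k ∧ Sec (b⁻¹ u) v (b⁻¹ w) y (k' % 8) := by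
  have hk : k % 8 < 8 := Nat.mod_lt _ (by norm_num)
  obtain ⟨r, hr⟩ : ∃ r, k % 8 = r := ⟨_, rfl⟩
  rw [hr] at hs hk
  have e0 : ∀ m, (k + m) % 8 = (r + m) % 8 := by intro m; omega
  have s4 : (k + 1) / 4 * 4 + 2 = k + (10 - r) % 4 := by omega
  simp only [step, s4]
  have p1 : w ≤ u → b⁻¹ u ≤ u := fun h1 => hW.inv_down (by
    rw [← B.le_iff, S.hw] at h1; exact h1)
  have p2 : u ≤ w → u ≤ b⁻¹ u := fun h1 => hW.inv_up (by
    rw [← B.le_iff, S.hw] at h1; exact h1)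
  -- if `v = y` then `b` fixes `y`
  have q1 : u < y → y ≤ b⁻¹ u → v ≠ y := fun h1 h2 h3 => by
    have h4 := hW.inv_fix (S.By_fix h3)
    have h5 : b⁻¹ u < b⁻¹ y := (b⁻¹.lt_iff).mpr h1
    rw [h4] at h5; exact absurd h5 (not_lt.mpr h2)
  have q2 : y < u → b⁻¹ u ≤ y → v ≠ y := fun h1 h2 h3 => by
    have h4 := hW.inv_fix (S.By_fix h3)
    have h5 : b⁻¹ y < b⁻¹ u := (b⁻¹.lt_iff).mpr h1
    rw [h4] at h5; exact absurd h5 (not_lt.mpr h2)
  interval_cases r
  · obtain ⟨h1, h2, h3⟩ := hs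
    rcases lt_or_ge y (b⁻¹ u) with h6 | h6
    · refine ⟨k, le_rfl, by omega, ?_⟩
      rw [hr]
      exact ⟨h6, h2, ((b⁻¹.le_iff).mpr h3).trans (hW.inv_down (S.By_pos h2))⟩
    · have h7 : v < y := lt_of_le_of_ne h2 (q2 h1 h6)
      rcases lt_or_ge v (b⁻¹ u) with h8 | h8
      · refine ⟨k + 1, by omega, by omega, ?_⟩
        rw [e0]; exact ⟨h8, h6⟩
      · refine ⟨k + 2, by omega, by omega, ?_⟩
        rw [e0]; exact ⟨h8, h7⟩
  · obtain ⟨h1, h2⟩ := hs
    have h3 : w ≤ u := S.le.trans (S.f1.mpr (h1.trans_le h2)).le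
    rcases lt_or_ge v (b⁻¹ u) with h6 | h6
    · refine ⟨k, le_rfl, by omega, ?_⟩
      rw [hr]; exact ⟨h6, (p1 h3).trans h2⟩
    · refine ⟨k + 1, by omega, by omega, ?_⟩
      rw [e0]; exact ⟨h6, h1.trans_le h2⟩
  · obtain ⟨h1, h2⟩ := hs
    have h3 : w ≤ u := S.le.trans (S.f1.mpr h2).le
    refine ⟨k, le_rfl, by omega, ?_⟩
    rw [hr]; exact ⟨(p1 h3).trans h1, h2⟩
  · obtain ⟨h1, h2, h3⟩ := hs
    rcases lt_or_ge (b⁻¹ u) y with h4 | h4
    · rcases lt_or_ge (b⁻¹ w) y with h6 | h6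
      · refine ⟨k, le_rfl, by omega, ?_⟩
        rw [hr]; exact ⟨h4, h2, h6⟩
      · refine ⟨k + 1, by omega, by omega, ?_⟩
        rw [e0]; exact ⟨h4, h2, h6⟩
    · have h7 : y < v := lt_of_le_of_ne h2 (q1 h1 h4).symm
      rcases lt_or_ge (b⁻¹ u) v with h8 | h8
      · refine ⟨k + 2, by omega, by omega, ?_⟩
        rw [e0]; exact ⟨h8, h4⟩
      · refine ⟨k + 3, by omega, by omega, ?_⟩
        rw [e0]; exact ⟨h8, h7⟩
  · obtain ⟨h1, h2, h3⟩ := hs
    rcases lt_or_ge (b⁻¹ u) y with h4 | h4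
    · refine ⟨k, le_rfl, by omega, ?_⟩
      rw [hr]
      exact ⟨h4, h2, (hW.inv_up (S.By_neg h2)).trans ((b⁻¹.le_iff).mpr h3)⟩
    · have h7 : y < v := lt_of_le_of_ne h2 (q1 h1 h4).symm
      rcases lt_or_ge (b⁻¹ u) v with h8 | h8
      · refine ⟨k + 1, by omega, by omega, ?_⟩
        rw [e0]; exact ⟨h8, h4⟩
      · refine ⟨k + 2, by omega, by omega, ?_⟩
        rw [e0]; exact ⟨h8, h7⟩
  · obtain ⟨h1, h2⟩ := hs
    have h4 : u ≤ w := h1.le.trans (S.f4.mpr h2)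
    have h5 : y ≤ b⁻¹ u := h2.trans (p2 h4)
    rcases lt_or_ge (b⁻¹ u) v with h6 | h6
    · refine ⟨k, le_rfl, by omega, ?_⟩
      rw [hr]; exact ⟨h6, h5⟩
    · refine ⟨k + 1, by omega, by omega, ?_⟩
      rw [e0]; exact ⟨h6, h2.trans_lt h1⟩
  · obtain ⟨h1, h2⟩ := hs
    refine ⟨k, le_rfl, by omega, ?_⟩
    rw [hr]
    have h3 : v ≤ b⁻¹ v := hW.inv_up (by rw [S.hv]; exact h2.le)
    exact ⟨h3.trans ((b⁻¹.le_iff).mpr h1), h2⟩
  · obtain ⟨h1, h2, h3⟩ := hs
    rcases lt_or_ge y (b⁻¹ u) with h4 | h4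
    · rcases lt_or_ge y (b⁻¹ w) with h6 | h6
      · refine ⟨k, le_rfl, by omega, ?_⟩
        rw [hr]; exact ⟨h4, h2, h6⟩
      · refine ⟨k + 1, by omega, by omega, ?_⟩
        rw [e0]; exact ⟨h4, h2, h6⟩
    · have h7 : v < y := lt_of_le_of_ne h2 (q2 h1 h4)
      rcases lt_or_ge v (b⁻¹ u) with h8 | h8
      · refine ⟨k + 2, by omega, by omega, ?_⟩
        rw [e0]; exact ⟨h8, h4⟩
      · refine ⟨k + 3, by omega, by omega, ?_⟩
        rw [e0]; exact ⟨h8, h7⟩

end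

end Pool.Agent.K7.H39.TB
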